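import Pool.Agent.Helper880_EX.Prd

/-!
# Integral points of one-parameter families with arbitrary monodromy groups are outside the Hodge locus

Let `f : X → S` be a family of varieties over `ℚ` with parameter `x` and `V_x` the variation of Hodge structures on (a part of)
the cohomology of the fibres. If the periods of `X_0` are arbitrary we prove that `V_t := V_(x = 1 / t)` is outside the Hodge
locus for one hundred per cent of the integers `t`: with at most `K x^(1 - δ)` exceptions `t ≤ x` the Mumford-Tate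
group of `V_t` contains the algebraic monodromy group. If the fibre `X_0` has few periods then there are no exceptions `t ≥ T`. The
algebraic monodromy group is arbitrary, and so are the weights and the Hodge numbers. A point of the Hodge locus of a
curve is atypical if its Mumford-Tate domain has codimension at least two in the domain `D` of the variation, and the
conjecture says that there are only finitely many such points.

**Setting.** The period matrix near `x = 0` with respect to a de Rham basis adapted to the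
Hodge filtration and to a Betti basis is `P(x) = C exp (M log x) Z(x)`, where `Z` is an `n × n` matrix of G-functions over
`ℚ`, `M` is the logarithm of the local monodromy (`M = 0` if the fibre over `0` is smooth) and `C` is the matrix of the
central periods. The column `b` of `P` is in `F^(lev b)`, and the columns with `lev b ≥ p` span `F^p`. Let `V_0` be any other
Hodge structure, with the period matrix `C₀`. Up to one common factor the entries of `C` and `C₀` are algebraic over a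
field generated by `s` numbers. We put `r = s` if `M = 0` and `r = s + 1` otherwise. Let `𝔤` be a space of infinitesimal
symmetries `X` of `Z`: the relations of `Z` over `ℂ[x]` hold to first order for `(1 + ε X) Z`. For example this is
the Lie algebra of the differential Galois group (if `M = 0`), and `C 𝔤 C⁻¹` is the Lie algebra of the algebraic
monodromy group, acting on the Betti cohomology. Let `𝔪 ⊆ C 𝔤 C⁻¹` be a Lie algebra which is spanned by rational
matrices and by commutators, for example the Lie algebra of the algebraic monodromy group, or one of its simple factors over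
`ℚ` (it is semisimple by the theorem of Deligne).

The Hodge structures on `V_0` and `V_t` are given by operators `φ₀`, `φ` which are `p` on `V^(p, w - p)`; they split
the Hodge filtrations. The Lie algebra `𝔥` of the Mumford-Tate group of `V_0 ⊕ V_(t_1) ⊕ … ⊕ V_(t_N)` is spanned by rational
matrices and contains the operator `φ₀ ⊕ φ_1 ⊕ … ⊕ φ_N`. The theorem is on all rational Lie algebras `𝔥` with
this property (the Lie algebras of all special subvarieties through the point; the stabilisers of the lines spanned by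
Hodge tensors). If `𝔥` contains `0 ⊕ 𝔪` then all tensors which span a line which is stable under `𝔥` are `𝔪`-invariant.

**Theorem.** (1) Let `c ≥ 1` be a lower bound, for all `j`, for the codimension of `𝔫 ∩ 𝔪_j^-` in the space `𝔪_j^-`
which is spanned by the elements of negative degree of `𝔪` with respect to `φ_j`, for all rational subalgebras `𝔫 ≠ 𝔪` of `𝔪`
which are stable under `φ_j`. There are `G` (which depends only on the family) and `E` such that for **all** `t_1, …, t_N`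
which are distinct, congruent modulo `G`, with `(t_i - t_j + 2)^E ≤ t_j` (for `N = 1` these are all `t ≥ 2^E`) and
for all `𝔥` there is a set `S` of at most `r / c` indices such that for `j ∉ S` every element of `𝔪` in the block `V_(t_j)`
can be lifted to an element of `𝔥` which is zero on `V_0` and on the other blocks `V_(t_i)`, `i ∉ S`. In particular, if `r < c`
then `𝔥` contains `0 ⊕ 𝔪 ⊕ … ⊕ 𝔪` for all `t_1, …, t_N` in the window, and for all `t ≥ 2^E` if `N = 1`.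

(2) For arbitrary `C₀` and `C` there are `K` and `δ > 0` such that for all sums `𝔪 = 𝔦_1 + … + 𝔦_k` of Lie algebras in `C 𝔤 C⁻¹` which
are simple over `ℚ` and not abelian, the number of the integers `t ≤ x` such that `V_t` has a Hodge operator `φ` which normalises all
`𝔦_l` and does not commute with any of them, and there is a rational Lie algebra `𝔥` which contains `φ₀ ⊕ φ` but not `0 ⊕ 𝔪`,
is at most `k K x^(1 - δ)`. For example `𝔪` is the Lie algebra of the algebraic monodromy group of **any** one-parameter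
family over `ℚ`: it is a sum of simple ideals by the theorem of Deligne. (By a theorem of André the Hodge operators
normalise `𝔪`, hence also its simple ideals. They do not commute with them: otherwise the real group would be
compact and the monodromy finite.) So one hundred per cent of the integral members of every one-parameter family over `ℚ` are
outside of the Hodge locus.

For families of abelian type the Hodge tensors are absolute and the theorem can be deduced from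
theorems on Galois representations (Serre, Terasoma, André, Cadoret-Tamagawa). In general it is only known that the fibres
over `ℚbar` without unexpected period relations of a given degree are dense in `S(ℂ)` (list of `MP_5591bc_ag`). The starting file
`HodgeGenericIntegralPoints` is on the hypergeometric families with symplectic monodromy. Our theorem on
`MP_e12fcd_ag` describes the Hodge tensors if the monodromy is the symplectic or orthogonal group of a polarisation; the theorem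
on `MP_d83ecd_ag` bounds the codimension of `𝔥 + Stab F` by `r`, which says nothing if `r` is large.

Proof (`Pool/Agent/Helper880_EX`, `Helper880_ZP`). The codimension of `𝔥 + Stab F` in the sum of the Lie algebras `𝔪` of
the blocks is at most `r` by the theorem on `MP_d83ecd_ag`. Let `R` be a maximal set of blocks `i` such
that all elements of `𝔪` in the block `i` lift to elements of `𝔥` which vanish on `V_0` and on the other blocks in `R`.
For `j ∉ R` the elements of `𝔪` in the block `j` which lift to elements of `𝔥` which vanish on `V_0` and on the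
blocks in `R` form a rational subalgebra `𝔫_j ≠ 𝔪` (`LH_insert`). It is stable under `φ_j` and has codimension at least `c` on
`𝔪_j^-`. So there are at most `r / c` such blocks. If `𝔪` is simple over `ℚ` and `φ` does not commute with it then
`c = 1` is possible: if `𝔫` contains `𝔪^-` then it contains `𝔪^+`, the complex conjugate, and the ideal which is generated by
them, and the rational closure of this ideal, which is `𝔪`. Windows of length `r + 1` give (2).
-/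

set_option autoImplicit false

open PowerSeries Filter
open scoped Matrix

namespace Pool.Agent.Results.MP_0704bf_ag.IntegralPointsAnyMonodromy

/-- an integer polynomial as a power series with rational coefficients -/
noncomputable def toQ (P : Polynomial ℤ) : PowerSeries ℚ := ((P.map (Int.castRingHom ℚ) : Polynomial ℚ) : PowerSeries ℚ)

/-- the power series `P(u^e)` -/
noncomputable def atPow (e : ℕ) (P : Polynomial ℤ) : PowerSeries ℂ :=
  ((Polynomial.expand ℂ e (P.map (Int.castRingHom ℂ)) : Polynomial ℂ) : PowerSeries ℂ)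

/-- the matrices `G_s` over `ℤ[x]` with `T^s y^(s) = G_s y` for all solutions `y` of `T y' = A y` -/
noncomputable def iter {r : ℕ} (T : Polynomial ℤ) (A : Fin r → Fin r → Polynomial ℤ) : ℕ → Fin r → Fin r → Polynomial ℤ
  | 0 => fun i j => if i = j then 1 else 0
  | s + 1 => fun i j => T * Polynomial.derivative (iter T A s i j) + ∑ l, iter T A s i l * A l j -
      (s : Polynomial ℤ) * (Polynomial.derivative T * iter T A s i j)

/-- The system `T y' = A y` has a fundamental matrix of solutions of the form `u^(-M) ∑_n Φ_n(u) (log u)^n` with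
`u^e = x` and convergent power series `Φ_n`: the point `0` is regular or a regular singularity with rational
exponents. -/
def QuasiUnipotent {r : ℕ} (T : Polynomial ℤ) (A : Fin r → Fin r → Polynomial ℤ) : Prop :=
  ∃ (e M : ℕ) (K : ℝ) (Φ : Matrix (Fin r) (Fin r) (Polynomial (PowerSeries ℂ))), 1 ≤ e ∧ Φ.det ≠ 0 ∧
    (∀ i j n m, ‖coeff m ((Φ i j).coeff n)‖ ≤ K ^ (m + 1)) ∧
    ∀ i j n, atPow e T * (X * PowerSeries.derivative ℂ ((Φ i j).coeff n) +
        ((n : PowerSeries ℂ) + 1) * (Φ i j).coeff (n + 1) - (M : PowerSeries ℂ) * (Φ i j).coeff n) =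
      (e : PowerSeries ℂ) * X ^ e * ∑ l, atPow e (A i l) * (Φ l j).coeff n

/-- `h_1, ..., h_r` are G-functions with rational coefficients which solve the differential system `T y' = A y`, with
the conditions of Siegel and Galochkin, and `0` is a regular point or a regular singularity with rational exponents of
the system. -/
structure GFamily {r : ℕ} (T : Polynomial ℤ) (A : Fin r → Fin r → Polynomial ℤ) (h : Fin r → PowerSeries ℚ) : Prop where
  /-- the denominator is not zero -/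
  T_ne : T ≠ 0
  /-- the differential equations -/
  ode : ∀ i, toQ T * PowerSeries.derivative ℚ (h i) = ∑ j, toQ (A i j) * h j
  /-- the coefficients have geometric growth -/
  size : ∃ C : ℝ, ∀ i m, |((coeff m (h i) : ℚ) : ℝ)| ≤ C ^ (m + 1)
  /-- the common denominators of the coefficients have geometric growth -/
  den : ∃ C : ℝ, ∀ m : ℕ, ∃ d : ℕ, 0 < d ∧ (d : ℝ) ≤ C ^ (m + 1) ∧ ∀ i, ∀ j ≤ m, ∃ a : ℤ, (d : ℚ) * coeff j (h i) = a
  /-- Galochkin's condition: the common denominators of the matrices `G_s / s!` have geometric growth -/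
  galochkin : ∃ C : ℝ, ∀ m : ℕ, ∃ d : ℕ, 0 < d ∧ (d : ℝ) ≤ C ^ (m + 1) ∧ ∀ s ≤ m, ∀ i j,
    ∃ H : Polynomial ℤ, (d : Polynomial ℤ) * iter T A s i j = (s.factorial : Polynomial ℤ) * H
  /-- the local exponents at `0` are rational and the singularity is regular -/
  regular : QuasiUnipotent T A

section family
variable {n : ℕ}

/-- the entries of a matrix -/
def entries (Z : Matrix (Fin n) (Fin n) (PowerSeries ℚ)) : Fin (n * n) → PowerSeries ℚ := fun a =>
  Z (finProdFinEquiv.symm a).1 (finProdFinEquiv.symm a).2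

/-- rational matrices as complex matrices -/
def toC (M : Matrix (Fin n) (Fin n) ℚ) : Matrix (Fin n) (Fin n) ℂ := M.map fun x : ℚ => (x : ℂ)

/-- the matrix `Z(1 / t)` -/
noncomputable def value (Z : Matrix (Fin n) (Fin n) (PowerSeries ℚ)) (t : ℕ) : Matrix (Fin n) (Fin n) ℂ :=
  Matrix.of fun i j => ((∑' k : ℕ, ((coeff k (Z i j) : ℚ) : ℝ) * (1 / (t : ℝ)) ^ k : ℝ) : ℂ)

/-- the period matrix `C exp (M log x) Z(x)` at `x = 1 / t` -/
noncomputable def period (C : Matrix (Fin n) (Fin n) ℂ) (M : Matrix (Fin n) (Fin n) ℚ)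
    (Z : Matrix (Fin n) (Fin n) (PowerSeries ℚ)) (t : ℕ) : Matrix (Fin n) (Fin n) ℂ :=
  C * (NormedSpace.exp ((-((Real.log (t : ℝ) : ℝ) : ℂ)) • toC M) * value Z t)

/-- the matrix of power series with complex coefficients -/
noncomputable def overC (Z : Matrix (Fin n) (Fin n) (PowerSeries ℚ)) : Matrix (Fin n) (Fin n) (PowerSeries ℂ) :=
  Z.map (PowerSeries.map (algebraMap ℚ ℂ))

/-- `X` is an infinitesimal symmetry of `Z`: for all polynomial relations `R(x, Z(x)) = 0` over `ℂ[x]` the derivative of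
`R(x, (1 + ε X) Z(x))` at `ε = 0` is zero. -/
def Symmetry (Z : Matrix (Fin n) (Fin n) (PowerSeries ℚ)) (X : Matrix (Fin n) (Fin n) ℂ) : Prop :=
  ∀ R : MvPolynomial (Fin n × Fin n) (Polynomial ℂ), MvPolynomial.aeval (fun b => overC Z b.1 b.2) R = 0 →
    ∑ b, MvPolynomial.aeval (fun b => overC Z b.1 b.2) (MvPolynomial.pderiv b R) *
      (X.map (PowerSeries.C (R := ℂ)) * overC Z) b.1 b.2 = 0

/-- up to a common factor the entries of `C₀` and `C` are algebraic over a field generated by `s` numbers -/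
def FewPeriods {r : ℕ} (s : ℕ) (C₀ : Matrix (Fin r) (Fin r) ℂ) (C : Matrix (Fin n) (Fin n) ℂ) : Prop :=
  ∃ (b : Fin s → ℂ) (κ : ℂ), κ ≠ 0 ∧ (∀ i j, IsAlgebraic (IntermediateField.adjoin ℚ (Set.range b)) (κ * C₀ i j)) ∧
    ∀ i j, IsAlgebraic (IntermediateField.adjoin ℚ (Set.range b)) (κ * C i j)

end family

section hodge
variable {B : Type} [Fintype B] [DecidableEq B]

/-- The Hodge filtration `F^p`: it is spanned by the columns `b` of the period matrix with `p ≤ lev b`. -/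
def hodge (lev : B → ℤ) (P : Matrix B B ℂ) (p : ℤ) : Submodule ℂ (B → ℂ) :=
  Submodule.span ℂ {v | ∃ b, p ≤ lev b ∧ v = fun i => P i b}

/-- `φ` splits the Hodge filtration: `F^p` is the sum of the eigenspaces of `φ` for the integral eigenvalues `q ≥ p`. -/
def Splits (lev : B → ℤ) (P φ : Matrix B B ℂ) : Prop :=
  ∀ p, hodge lev P p = Submodule.span ℂ {v | ∃ q : ℤ, p ≤ q ∧ φ *ᵥ v = (q : ℂ) • v}

end hodge

section
variable {n N r₀ : ℕ}

/-- the block matrix `x ⊕ X_1 ⊕ … ⊕ X_N` -/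
def total (x : Matrix (Fin r₀) (Fin r₀) ℂ) (X : Fin N → Matrix (Fin n) (Fin n) ℂ) :
    Matrix (Fin r₀ ⊕ (Fin n × Fin N)) (Fin r₀ ⊕ (Fin n × Fin N)) ℂ :=
  Matrix.fromBlocks x 0 0 (Matrix.blockDiagonal X)

/-- `C 𝔤 C⁻¹` -/
def conjugate (C : Matrix (Fin n) (Fin n) ℂ) (𝔤 : Submodule ℂ (Matrix (Fin n) (Fin n) ℂ)) :
    Submodule ℂ (Matrix (Fin n) (Fin n) ℂ) where
  carrier := {Y | ∃ X ∈ 𝔤, Y = C * X * C⁻¹}
  zero_mem' := ⟨0, 𝔤.zero_mem, by rw [Matrix.mul_zero, Matrix.zero_mul]⟩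
  add_mem' := by
    rintro _ _ ⟨X, hX, rfl⟩ ⟨Y, hY, rfl⟩
    exact ⟨X + Y, 𝔤.add_mem hX hY, by rw [Matrix.mul_add, Matrix.add_mul]⟩
  smul_mem' := by
    rintro c _ ⟨X, hX, rfl⟩
    exact ⟨c • X, 𝔤.smul_mem c hX, by rw [Matrix.mul_smul, Matrix.smul_mul]⟩

end

section lie
variable {B : Type}

/-- the space is spanned by rational matrices -/
def IsRational (W : Submodule ℂ (Matrix B B ℂ)) : Prop :=
  W ≤ Submodule.span ℂ {X | X ∈ W ∧ ∀ a b, ∃ q : ℚ, X a b = q}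

variable [Fintype B]

/-- the space is a Lie algebra -/
def IsLie (W : Submodule ℂ (Matrix B B ℂ)) : Prop := ∀ X ∈ W, ∀ Y ∈ W, X * Y - Y * X ∈ W

/-- the Lie algebra is spanned by commutators -/
def IsPerfect (𝔪 : Submodule ℂ (Matrix B B ℂ)) : Prop :=
  𝔪 ≤ Submodule.span ℂ {W | ∃ X ∈ 𝔪, ∃ Y ∈ 𝔪, W = X * Y - Y * X}

/-- `φ` normalises `𝔪` -/
def Normalises (φ : Matrix B B ℂ) (𝔪 : Submodule ℂ (Matrix B B ℂ)) : Prop := ∀ Y ∈ 𝔪, φ * Y - Y * φ ∈ 𝔪

/-- the space which is spanned by the elements `X` of `𝔪` such that `[φ, X] = a X` with a negative integer `a` -/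
def negative (𝔪 : Submodule ℂ (Matrix B B ℂ)) (φ : Matrix B B ℂ) : Submodule ℂ (Matrix B B ℂ) :=
  Submodule.span ℂ {X | X ∈ 𝔪 ∧ ∃ a : ℤ, a < 0 ∧ φ * X - X * φ = (a : ℂ) • X}

/-- For all rational Lie algebras `𝔫` in `𝔪`, `𝔫 ≠ 𝔪`, which are normalised by `φ` the codimension of `𝔫 ∩ 𝔪^-` in `𝔪^-` is
at least `c`. -/
def Codimension (c : ℕ) (𝔪 : Submodule ℂ (Matrix B B ℂ)) (φ : Matrix B B ℂ) : Prop :=
  ∀ 𝔫 : Submodule ℂ (Matrix B B ℂ), 𝔫 ≤ 𝔪 → IsRational 𝔫 → IsLie 𝔫 → Normalises φ 𝔫 → 𝔫 ≠ 𝔪 →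
    Module.finrank ℂ (negative 𝔪 φ ⊓ 𝔫 : Submodule ℂ (Matrix B B ℂ)) + c ≤ Module.finrank ℂ (negative 𝔪 φ)

/-- `𝔪` is a rational Lie algebra which is not abelian and has no rational ideals except `0` and `𝔪`. -/
structure IsSimpleOverRationals (𝔪 : Submodule ℂ (Matrix B B ℂ)) : Prop where
  /-- it is spanned by rational matrices -/
  rational : IsRational 𝔪
  /-- it is a Lie algebra -/
  lie : IsLie 𝔪
  /-- it is not abelian -/
  nonabelian : ∃ X ∈ 𝔪, ∃ Y ∈ 𝔪, X * Y ≠ Y * X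
  /-- there are no rational ideals except `0` and `𝔪` -/
  simple : ∀ 𝔦 : Submodule ℂ (Matrix B B ℂ), 𝔦 ≤ 𝔪 → IsRational 𝔦 → (∀ X ∈ 𝔪, ∀ Y ∈ 𝔦, X * Y - Y * X ∈ 𝔦) → 𝔦 ≠ ⊥ → 𝔦 = 𝔪

end lie

/-- For all `c`, all rational perfect Lie algebras `𝔪` in `𝔤'`, all operators `φ₀`, `φ_j` which split the Hodge
filtrations with the period matrices `C₀`, `P_j` such that `φ_j` normalises `𝔪`, and `Codimension c`, and for all rational Lie
algebras `𝔥` which contain `φ₀ ⊕ φ_1 ⊕ … ⊕ φ_N` there is a set `S` of at most `r / c` indices such that for `j ∉ S` every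
element of `𝔪` in the block `j` can be lifted to an element of `𝔥` which is zero on `V_0` and on the other blocks `i ∉ S`. -/
def FewExceptions {n N r₀ : ℕ} (r : ℕ) (𝔤' : Submodule ℂ (Matrix (Fin n) (Fin n) ℂ)) (lev₀ : Fin r₀ → ℤ) (lev : Fin n → ℤ)
    (C₀ : Matrix (Fin r₀) (Fin r₀) ℂ) (P : Fin N → Matrix (Fin n) (Fin n) ℂ) : Prop :=
  ∀ (c : ℕ) (𝔪 : Submodule ℂ (Matrix (Fin n) (Fin n) ℂ)) (φ₀ : Matrix (Fin r₀) (Fin r₀) ℂ)
    (φ : Fin N → Matrix (Fin n) (Fin n) ℂ), 𝔪 ≤ 𝔤' → IsRational 𝔪 → IsLie 𝔪 → IsPerfect 𝔪 →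
    Splits lev₀ C₀ φ₀ → (∀ j, Splits lev (P j) (φ j)) → (∀ j, Normalises (φ j) 𝔪) → (∀ j, Codimension c 𝔪 (φ j)) →
    ∀ 𝔥 : Submodule ℂ (Matrix (Fin r₀ ⊕ (Fin n × Fin N)) (Fin r₀ ⊕ (Fin n × Fin N)) ℂ), IsRational 𝔥 → IsLie 𝔥 →
      total φ₀ φ ∈ 𝔥 → ∃ S : Finset (Fin N), S.card * c ≤ r ∧ ∀ j ∉ S, ∀ X ∈ 𝔪,
        ∃ Y : Fin N → Matrix (Fin n) (Fin n) ℂ, (∀ i, Y i ∈ 𝔪) ∧ total 0 Y ∈ 𝔥 ∧ Y j = X ∧ ∀ i ∉ S, i ≠ j → Y i = 0

/-- The integer `t` is in the Hodge locus, relative to `V_0` and `𝔪 = ∑ 𝔦_l`: there are a Hodge operator `φ` on `V_t` (it splits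
the Hodge filtration, and its complex conjugate is `w - φ`), which normalises each `𝔦_l` and does not commute with `𝔦_l`, and a
rational Lie algebra `𝔥` which contains `φ₀ ⊕ φ` but not `0 ⊕ 𝔪`. -/
def InHodgeLocus {n r₀ k : ℕ} (C : Matrix (Fin n) (Fin n) ℂ) (M : Matrix (Fin n) (Fin n) ℚ)
    (Z : Matrix (Fin n) (Fin n) (PowerSeries ℚ)) (lev : Fin n → ℤ) (φ₀ : Matrix (Fin r₀) (Fin r₀) ℂ)
    (𝔦 : Fin k → Submodule ℂ (Matrix (Fin n) (Fin n) ℂ)) (t : ℕ) : Prop :=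
  IsUnit (period C M Z t) ∧ ∃ φ, Splits lev (period C M Z t) φ ∧
    (∃ w : ℤ, φ.map star = (w : ℂ) • (1 : Matrix (Fin n) (Fin n) ℂ) - φ) ∧ (∀ l, Normalises φ (𝔦 l)) ∧
    (∀ l, ∃ X ∈ 𝔦 l, φ * X ≠ X * φ) ∧
    ∃ 𝔥 : Submodule ℂ (Matrix (Fin r₀ ⊕ (Fin n × Fin 1)) (Fin r₀ ⊕ (Fin n × Fin 1)) ℂ), IsRational 𝔥 ∧ IsLie 𝔥 ∧
      total φ₀ (fun _ => φ) ∈ 𝔥 ∧ ∃ X ∈ ⨆ l, 𝔦 l, total 0 (fun _ => X) ∉ 𝔥

/-- the numbers `t_j` are distinct and congruent modulo `G`, and `(t_i - t_j + 2)^E ≤ t_j` -/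
def InWindow (G E : ℕ) {N : ℕ} (t : Fin N → ℕ) : Prop :=
  Function.Injective t ∧ (∀ i j, t i ≡ t j [MOD G]) ∧ ∀ i j, (t i - t j + 2) ^ E ≤ t j

theorem iter_eq {r : ℕ} (T : Polynomial ℤ) (A : Fin r → Fin r → Polynomial ℤ) (s : ℕ) :
    iter T A s = Pool.Agent.Y120.GH.itm T A s := by
  induction s with
  | zero => rfl
  | succ s ih =>
    funext i j
    rw [iter, Pool.Agent.Y120.GH.itm, ih]

theorem qu_eq {r : ℕ} {T : Polynomial ℤ} {A : Fin r → Fin r → Polynomial ℤ} (h : QuasiUnipotent T A) :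
    Pool.Agent.Y120.GH.QU0 T A := by
  obtain ⟨e, M, K, Φ, he, hdet, hc, heq⟩ := h
  have he0 : e ≠ 0 := by omega
  refine ⟨e, he0, M, K, Φ, hc, fun i j n => ?_, hdet⟩
  have h1 := heq i j n
  simp only [atPow] at h1
  rw [Pool.Agent.Y120.GH.expand_poly he0]
  simp only [Pool.Agent.Y120.GH.expand_poly he0]
  exact h1

theorem gal_eq {r : ℕ} {T : Polynomial ℤ} {A : Fin r → Fin r → Polynomial ℤ} {h : Fin r → PowerSeries ℚ}
    (hG : GFamily T A h) : ∃ C : ℝ, ∀ m, ∃ d : ℕ, 0 < d ∧ (d : ℝ) ≤ C ^ (m + 1) ∧ ∀ s ≤ m, ∀ i j, ∃ H : Polynomial ℤ,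
      (d : Polynomial ℤ) * Pool.Agent.Y120.GH.itm T A s i j = (s.factorial : Polynomial ℤ) * H := by
  obtain ⟨C, hC⟩ := hG.galochkin
  refine ⟨C, fun m => ?_⟩
  obtain ⟨d, h1, h2, h3⟩ := hC m
  refine ⟨d, h1, h2, fun s hs i' j' => ?_⟩
  rw [← iter_eq]
  exact h3 s hs i' j'

theorem map_eq {n : ℕ} (M : Matrix (Fin n) (Fin n) ℚ) : toC M = Pool.Agent.Y119.HY.cm M := by
  ext i j
  rw [Pool.Agent.Y119.HY.cm_apply]
  rfl

theorem sym_inf {n : ℕ} {Z : Matrix (Fin n) (Fin n) (PowerSeries ℚ)} {X : Matrix (Fin n) (Fin n) ℂ} (h : Symmetry Z X) :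
    Pool.Agent.Helper880_R3.Inf Z X := by
  intro R hR
  refine Eq.trans ?_ (h R hR)
  unfold Pool.Agent.Helper880_R3.DX
  rw [map_sum]
  refine Finset.sum_congr rfl fun b _ => ?_
  rw [map_mul, map_sum, Matrix.mul_apply]
  refine congrArg₂ (· * ·) rfl (Finset.sum_congr rfl fun l _ => ?_)
  rw [map_mul, MvPolynomial.aeval_C, MvPolynomial.aeval_X, Matrix.map_apply, Matrix.map_apply]
  have h1 : algebraMap (Polynomial ℂ) (PowerSeries ℂ) (Polynomial.C (X b.1 l)) = PowerSeries.C (X b.1 l) :=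
    Polynomial.coe_C _
  rw [h1]
  rfl

theorem alg_mem {ι : Type} (b : ι → ℂ) (k : ι) : IsAlgebraic (IntermediateField.adjoin ℚ (Set.range b)) (b k) := by
  have h1 : b k ∈ IntermediateField.adjoin ℚ (Set.range b) := IntermediateField.subset_adjoin ℚ _ ⟨k, rfl⟩
  exact isAlgebraic_algebraMap (⟨b k, h1⟩ : IntermediateField.adjoin ℚ (Set.range b))

theorem all_few {r n : ℕ} (C₀ : Matrix (Fin r) (Fin r) ℂ) (C : Matrix (Fin n) (Fin n) ℂ) : ∃ s, FewPeriods s C₀ C := by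
  set e := Fintype.equivFin ((Fin r × Fin r) ⊕ (Fin n × Fin n)) with he
  refine ⟨Fintype.card ((Fin r × Fin r) ⊕ (Fin n × Fin n)), fun k => Sum.elim (fun p => C₀ p.1 p.2) (fun p => C p.1 p.2)
    (e.symm k), 1, one_ne_zero, fun i j => ?_, fun i j => ?_⟩
  · have h1 := alg_mem (fun k => Sum.elim (fun p => C₀ p.1 p.2) (fun p => C p.1 p.2) (e.symm k)) (e (Sum.inl (i, j)))
    rw [one_mul]
    simpa using h1
  · have h1 := alg_mem (fun k => Sum.elim (fun p => C₀ p.1 p.2) (fun p => C p.1 p.2) (e.symm k)) (e (Sum.inr (i, j)))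
    rw [one_mul]
    simpa using h1

theorem total_unit {r n N : ℕ} {C₀ : Matrix (Fin r) (Fin r) ℂ} {P : Fin N → Matrix (Fin n) (Fin n) ℂ} (h₀ : IsUnit C₀)
    (h : ∀ j, IsUnit (P j)) : IsUnit (total C₀ P) := by
  unfold total
  rw [Matrix.isUnit_fromBlocks_zero₁₂, Matrix.isUnit_iff_isUnit_det (Matrix.blockDiagonal P), Matrix.det_blockDiagonal]
  refine ⟨h₀, ?_⟩
  rw [isUnit_iff_ne_zero, Finset.prod_ne_zero_iff]
  intro j _
  exact ((Matrix.isUnit_iff_isUnit_det _).1 (h j)).ne_zero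

theorem rat_eq {B : Type} {W : Submodule ℂ (Matrix B B ℂ)} :
    IsRational W ↔ Pool.Agent.Helper880_ZP.DefOver Pool.Agent.Helper880_ZP.K₀ W := by
  have h : {X | X ∈ W ∧ ∀ a b, ∃ q : ℚ, X a b = q} = {X | X ∈ W ∧ ∀ a b, X a b ∈ Pool.Agent.Helper880_ZP.K₀} := by
    ext X
    simp only [Pool.Agent.Helper880_ZP.mem_K₀]
  unfold IsRational Pool.Agent.Helper880_ZP.DefOver
  rw [h]
  exact ⟨fun h1 => le_antisymm h1 (Submodule.span_le.2 fun X hX => hX.1), fun h1 => h1.le⟩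

theorem concl {n N r₀ r : ℕ} {𝔤 : Submodule ℂ (Matrix (Fin n) (Fin n) ℂ)} {lev₀ : Fin r₀ → ℤ} {lev : Fin n → ℤ}
    {C₀ : Matrix (Fin r₀) (Fin r₀) ℂ} {C : Matrix (Fin n) (Fin n) ℂ} {P : Fin N → Matrix (Fin n) (Fin n) ℂ}
    (hu : IsUnit (total C₀ P))
    (h : ∀ 𝔥 : Submodule ℂ (Matrix (Fin r₀ ⊕ (Fin n × Fin N)) (Fin r₀ ⊕ (Fin n × Fin N)) ℂ),
      Pool.Agent.Helper880_ZP.DefOver Pool.Agent.Helper880_ZP.K₀ 𝔥 → Pool.Agent.Helper880_ZP.Lie' 𝔥 →
      (∃ φ ∈ 𝔥, ∃ V ∈ Pool.Agent.Helper880_ZP.upS ℂ (Pool.Agent.Helper880_ZP.Lv N lev₀ lev),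
        φ * (total C₀ P * (1 + V)) = total C₀ P * (1 + V) * Pool.Agent.Helper880_ZP.Dg ℂ (Pool.Agent.Helper880_ZP.Lv N lev₀ lev)) →
      Module.finrank ℂ (Pool.Agent.Helper880_ZP.blS r₀ N (Pool.Agent.Helper880_ZP.cgS C 𝔤)) ≤
        Module.finrank ℂ (Pool.Agent.Helper880_ZP.blS r₀ N (Pool.Agent.Helper880_ZP.cgS C 𝔤) ⊓
          (𝔥 ⊔ Pool.Agent.Helper880_ZP.cjS (total C₀ P)
            (Pool.Agent.Helper880_ZP.ppS ℂ (Pool.Agent.Helper880_ZP.Lv N lev₀ lev))) : Submodule ℂ _) + r) :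
    FewExceptions r (conjugate C 𝔤) lev₀ lev C₀ P := by
  intro c 𝔪 φ₀ φ hm hmr hml hmp h0 hsp hst hcod 𝔥 hr hL hφ
  have hr' := rat_eq.1 hr
  have hL' : Pool.Agent.Helper880_ZP.Lie' 𝔥 := hL
  obtain ⟨⟨V, hV, hVe⟩, hblk⟩ := Pool.Agent.Helper880_ZP.blk hu h0 hsp
  have hud := (Matrix.isUnit_iff_isUnit_det _).1 hu
  obtain ⟨hEig, hcj⟩ := Pool.Agent.Helper880_ZP.Eig.mk' hud hV hVe
  have hc1 := h _ hr' hL' ⟨_, hφ, V, hV, hVe⟩
  have hc2 : Module.finrank ℂ (Pool.Agent.Helper880_ZP.blS r₀ N (Pool.Agent.Helper880_ZP.cgS C 𝔤)) ≤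
      Module.finrank ℂ (Pool.Agent.Helper880_ZP.blS r₀ N (Pool.Agent.Helper880_ZP.cgS C 𝔤) ⊓
        (𝔥 ⊔ Pool.Agent.Helper880_ZP.cjS (total C₀ P * (1 + V))
          (Pool.Agent.Helper880_ZP.ppS ℂ (Pool.Agent.Helper880_ZP.Lv N lev₀ lev))) : Submodule ℂ _) + r := by
    rw [hcj]
    exact hc1
  have hmem : ∀ j, ∀ X ∈ 𝔪, Pool.Agent.Helper880_R3.ib j X ∈
      Pool.Agent.Helper880_ZP.blS r₀ N (Pool.Agent.Helper880_ZP.cgS C 𝔤) := fun j X hX =>
    Pool.Agent.Helper880_ZP.ib_blS (hm hX)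
  obtain ⟨S, h1, h2⟩ := Pool.Agent.Helper880_EX.LH_main (c := c) hEig hL' hml hr' (rat_eq.1 hmr) hmp hφ hst
    (fun j 𝔫 k1 k2 k3 k4 k5 => hcod j 𝔫 k1 (rat_eq.2 k2) k3 k4 k5) hmem hc2
  refine ⟨S, h1, fun j hj X hX => ?_⟩
  obtain ⟨Y, y1, y2, y3, y4⟩ := h2 j (Finset.mem_compl.2 hj) X hX
  exact ⟨Y, y1, y2, y3, fun i hi hij => y4 i (Finset.mem_compl.2 hi) hij⟩

theorem per_eq {n : ℕ} (C : Matrix (Fin n) (Fin n) ℂ) (M : Matrix (Fin n) (Fin n) ℚ) (Z : Matrix (Fin n) (Fin n) (PowerSeries ℚ))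
    (t : ℕ) : period C M Z t = C * (NormedSpace.exp ((-((Real.log (t : ℝ) : ℝ) : ℂ)) • Pool.Agent.Y119.HY.cm M) *
      Pool.Agent.Y118.HV.Hv Z t) := by
  unfold period
  rw [map_eq]
  rfl

theorem windows (n : ℕ) (hn : 0 < n) (T : Polynomial ℤ) (A : Fin (n * n) → Fin (n * n) → Polynomial ℤ)
    (Z : Matrix (Fin n) (Fin n) (PowerSeries ℚ)) (hG : GFamily T A (entries Z)) (M : Matrix (Fin n) (Fin n) ℚ)
    (hM : M ^ n = 0) (𝔤 : Submodule ℂ (Matrix (Fin n) (Fin n) ℂ)) (hI : ∀ X ∈ 𝔤, Symmetry Z X)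
    (hM𝔤 : ∀ X ∈ 𝔤, toC M * X - X * toC M ∈ 𝔤) :
    ∃ G : ℕ, 1 ≤ G ∧ ∀ (N r₀ s r : ℕ) (C₀ : Matrix (Fin r₀) (Fin r₀) ℂ) (C : Matrix (Fin n) (Fin n) ℂ)
      (lev₀ : Fin r₀ → ℤ) (lev : Fin n → ℤ), 0 < N → FewPeriods s C₀ C → s + (if M = 0 then 0 else 1) ≤ r →
      ∃ E : ℕ, ∀ t : Fin N → ℕ, InWindow G E t → IsUnit (total C₀ fun j => period C M Z (t j)) →
        FewExceptions r (conjugate C 𝔤) lev₀ lev C₀ fun j => period C M Z (t j) := by
  obtain ⟨q', C', hG'⟩ := Pool.Agent.Y120.GH.gsys_of hG.ode hG.size hG.den (gal_eq hG)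
  rw [map_eq] at hM𝔤
  obtain ⟨G, hG1, h⟩ := Pool.Agent.Helper880_ZP.two hn hG.T_ne hG.ode hG' (qu_eq hG.regular)
    (fun X hX => sym_inf (hI X hX)) hM hM𝔤
  refine ⟨G, hG1, fun N r₀ s r C₀ C lev₀ lev hN hfew hs => ?_⟩
  obtain ⟨E, hE⟩ := h N 1 r₀ s r C₀ C lev₀ lev hN hfew hs
  exact ⟨E, fun t ht hu => concl hu fun 𝔥 h1 h2 h3 =>
    (hE t ht.1 ht.2.1 ht.2.2 (fun j => period C M Z (t j)) (funext fun j => per_eq _ _ _ _) hu 𝔥 h1).2 h2 h3⟩

/-- **The theorem.** -/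
theorem result (n : ℕ) (hn : 0 < n) (T : Polynomial ℤ) (A : Fin (n * n) → Fin (n * n) → Polynomial ℤ)
    (Z : Matrix (Fin n) (Fin n) (PowerSeries ℚ)) (hG : GFamily T A (entries Z)) (M : Matrix (Fin n) (Fin n) ℚ)
    (hM : M ^ n = 0) (𝔤 : Submodule ℂ (Matrix (Fin n) (Fin n) ℂ)) (hI : ∀ X ∈ 𝔤, Symmetry Z X)
    (hM𝔤 : ∀ X ∈ 𝔤, toC M * X - X * toC M ∈ 𝔤) :
    (∃ G : ℕ, 1 ≤ G ∧ ∀ (N r₀ s r : ℕ) (C₀ : Matrix (Fin r₀) (Fin r₀) ℂ) (C : Matrix (Fin n) (Fin n) ℂ)
      (lev₀ : Fin r₀ → ℤ) (lev : Fin n → ℤ), 0 < N → FewPeriods s C₀ C → s + (if M = 0 then 0 else 1) ≤ r →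
      ∃ E : ℕ, ∀ t : Fin N → ℕ, InWindow G E t → IsUnit (total C₀ fun j => period C M Z (t j)) →
        FewExceptions r (conjugate C 𝔤) lev₀ lev C₀ fun j => period C M Z (t j)) ∧
    ∀ (r₀ : ℕ) (C₀ : Matrix (Fin r₀) (Fin r₀) ℂ) (C : Matrix (Fin n) (Fin n) ℂ) (lev₀ : Fin r₀ → ℤ) (lev : Fin n → ℤ),
      IsUnit C₀ → ∃ K δ : ℝ, 0 < δ ∧ ∀ (k : ℕ) (𝔦 : Fin k → Submodule ℂ (Matrix (Fin n) (Fin n) ℂ))
        (φ₀ : Matrix (Fin r₀) (Fin r₀) ℂ), (∀ l, 𝔦 l ≤ conjugate C 𝔤) → (∀ l, IsSimpleOverRationals (𝔦 l)) →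
        Splits lev₀ C₀ φ₀ → ∀ x : ℕ, 1 ≤ x →
          (({t | InHodgeLocus C M Z lev φ₀ 𝔦 t ∧ t ≤ x}.ncard : ℕ) : ℝ) ≤ k * (K * (x : ℝ) ^ (1 - δ)) := by
  have hw := windows n hn T A Z hG M hM 𝔤 hI hM𝔤
  refine ⟨hw, fun r₀ C₀ C lev₀ lev hC₀ => ?_⟩
  obtain ⟨G, hG1, h⟩ := hw
  obtain ⟨s, hs⟩ := all_few C₀ C
  set r := s + (if M = 0 then 0 else 1) with hr
  obtain ⟨E, hE⟩ := h (r + 1) r₀ s r C₀ C lev₀ lev (Nat.succ_pos r) hs le_rfl
  obtain ⟨K, δ, hδ, hK⟩ := Pool.Agent.Helper880_AJ.count_win (G := G) (E := E) (N := r + 1) (by omega) (Nat.succ_pos r)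
  -- simple Lie algebras
  have one : ∀ (𝔪 : Submodule ℂ (Matrix (Fin n) (Fin n) ℂ)) (φ₀ : Matrix (Fin r₀) (Fin r₀) ℂ),
      𝔪 ≤ conjugate C 𝔤 → IsSimpleOverRationals 𝔪 → Splits lev₀ C₀ φ₀ → ∀ x : ℕ, 1 ≤ x →
      (({t | InHodgeLocus C M Z lev φ₀ (fun _ : Fin 1 => 𝔪) t ∧ t ≤ x}.ncard : ℕ) : ℝ) ≤ K * (x : ℝ) ^ (1 - δ) := by
    intro 𝔪 φ₀ hm hsimple h0 x hx
    refine hK {t | InHodgeLocus C M Z lev φ₀ (fun _ : Fin 1 => 𝔪) t} ?_ x hx
    intro t ht1 ht2 ht3
    by_contra hcon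
    simp only [not_exists, not_not] at hcon
    choose hu φ hφ hw hst hne 𝔥 hrat hlie hin X hX hnot using hcon
    have hQ : Pool.Agent.Helper880_EX.QSi 𝔪 := ⟨rat_eq.1 hsimple.rational, hsimple.lie, hsimple.nonabelian,
      fun 𝔦 k1 k2 k3 k4 => hsimple.simple 𝔦 k1 (rat_eq.2 k2) k3 k4⟩
    have hU := total_unit hC₀ hu
    obtain ⟨-, hblk⟩ := Pool.Agent.Helper880_ZP.blk hU h0 hφ
    obtain ⟨S, hS, hS'⟩ := hE t ⟨ht1, ht2, ht3⟩ hU 1 𝔪 φ₀ φ hm hsimple.rational hsimple.lie hQ.prf h0 hφ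
      (fun j => hst j 0)
      (fun j 𝔫 k1 k2 k3 k4 k5 => (hblk j).elim fun R hR => (hw j).elim fun w hw =>
        hQ.cod hR hw (hst j 0) (hne j 0) 𝔫 k1 (rat_eq.1 k2) k3 k4 k5)
      (Pool.Agent.Helper880_EX.prH 𝔥) (rat_eq.2 (Pool.Agent.Helper880_EX.prH_rat fun j => rat_eq.1 (hrat j)))
      (Pool.Agent.Helper880_EX.prH_lie hlie) ⟨φ₀, φ, rfl, hin⟩
    obtain ⟨j, hj⟩ : ∃ j, j ∉ S := by
      by_contra hc
      simp only [not_exists, not_not] at hc
      have h1 : S = Finset.univ := Finset.eq_univ_of_forall hc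
      rw [h1, Finset.card_univ, Fintype.card_fin] at hS
      omega
    have hXj : X j ∈ 𝔪 := by
      have h1 := hX j
      rwa [ciSup_const] at h1
    obtain ⟨Y, -, y2, y3, -⟩ := hS' j hj (X j) hXj
    refine hnot j ?_
    have h1 := Pool.Agent.Helper880_EX.prH_of (j := j) y2
    rw [y3] at h1
    exact h1
  refine ⟨K, δ, hδ, fun k 𝔦 φ₀ hm hsimple h0 x hx => ?_⟩
  have hsub : {t | InHodgeLocus C M Z lev φ₀ 𝔦 t ∧ t ≤ x} ⊆
      ⋃ l ∈ (Finset.univ : Finset (Fin k)), {t | InHodgeLocus C M Z lev φ₀ (fun _ : Fin 1 => 𝔦 l) t ∧ t ≤ x} := by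
    rintro t ⟨⟨hu, φ, hφ, hw, hst, hne, 𝔥, hrat, hlie, hin, X, hX, hnot⟩, htx⟩
    by_contra hcon
    simp only [Set.mem_iUnion, not_exists, Set.mem_ofPred_eq] at hcon
    have h1 : (⨆ l, 𝔦 l) ≤ 𝔥.comap (Pool.Agent.Helper880_R3.ib (r₀ := r₀) (0 : Fin 1)) := by
      refine iSup_le fun l Y hY => ?_
      by_contra hc
      refine hcon l (Finset.mem_univ l) ⟨⟨hu, φ, hφ, hw, fun _ => hst l, fun _ => hne l, 𝔥, hrat, hlie, hin, Y, ?_, ?_⟩, htx⟩
      · rw [ciSup_const]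
        exact hY
      · intro h2
        refine hc ?_
        rw [Submodule.mem_comap, Pool.Agent.Helper880_R3.ib_apply]
        have h3 : (Pi.single 0 Y : Fin 1 → Matrix (Fin n) (Fin n) ℂ) = fun _ => Y := by
          funext j
          rw [Subsingleton.elim j 0, Pi.single_eq_same]
        rw [h3]
        exact h2
    have h2 := h1 hX
    rw [Submodule.mem_comap, Pool.Agent.Helper880_R3.ib_apply] at h2
    have h3 : (Pi.single 0 X : Fin 1 → Matrix (Fin n) (Fin n) ℂ) = fun _ => X := by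
      funext j
      rw [Subsingleton.elim j 0, Pi.single_eq_same]
    rw [h3] at h2
    exact hnot h2
  have hfin : (⋃ l ∈ (Finset.univ : Finset (Fin k)), {t | InHodgeLocus C M Z lev φ₀ (fun _ : Fin 1 => 𝔦 l) t ∧ t ≤ x}).Finite := by
    refine Set.Finite.subset (Set.finite_le_nat x) ?_
    intro t ht
    simp only [Set.mem_iUnion, Set.mem_ofPred_eq] at ht
    obtain ⟨l, -, -, h1⟩ := ht
    exact h1
  have h1 := Set.ncard_le_ncard hsub hfin
  have h2 : (⋃ l ∈ (Finset.univ : Finset (Fin k)), {t | InHodgeLocus C M Z lev φ₀ (fun _ : Fin 1 => 𝔦 l) t ∧ t ≤ x}).ncard ≤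
      ∑ l : Fin k, {t | InHodgeLocus C M Z lev φ₀ (fun _ : Fin 1 => 𝔦 l) t ∧ t ≤ x}.ncard :=
    Finset.set_ncard_biUnion_le _ _
  have h3 : ((∑ l : Fin k, {t | InHodgeLocus C M Z lev φ₀ (fun _ : Fin 1 => 𝔦 l) t ∧ t ≤ x}.ncard : ℕ) : ℝ) ≤
      ∑ l : Fin k, K * (x : ℝ) ^ (1 - δ) := by
    push_cast
    exact Finset.sum_le_sum fun l _ => one (𝔦 l) φ₀ (hm l) (hsimple l) h0 x hx
  rw [Finset.sum_const, Finset.card_univ, Fintype.card_fin, nsmul_eq_mul] at h3
  have h4 : (({t | InHodgeLocus C M Z lev φ₀ 𝔦 t ∧ t ≤ x}.ncard : ℕ) : ℝ) ≤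
      ((∑ l : Fin k, {t | InHodgeLocus C M Z lev φ₀ (fun _ : Fin 1 => 𝔦 l) t ∧ t ≤ x}.ncard : ℕ) : ℝ) := by
    exact_mod_cast h1.trans h2
  exact h4.trans h3

end Pool.Agent.Results.MP_0704bf_ag.IntegralPointsAnyMonodromy
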